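import Pool.Agent.H28.GN.T3
import Pool.Agent.H14.LF.LBL

/-!
Row GLB of thg_modules: the logarithmic means of all box averages are large.
-/

set_option autoImplicit false

open MeasureTheory ProbabilityTheory Filter Topology Finset
open scoped Nat ENNReal

namespace Pool.Agent.H37.GNG

open Pool.Agent.H28.GN
open Pool.Agent.H28.MCL (Aw)
open Pool.Agent.H28.LF (Um lt)
open Pool.Agent.H83.X (ldI)

/-- a lower bound for `ldI` (as in `Pool.Agent.H13.X.XLB`) -/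
theorem ldI_ge (U : Ultrafilter ℕ) (x y : ℕ → ℕ) (F : ℕ → ℝ) (M c : ℝ) (hAw : Aw U x y)
    (hxy : ∀ j, x j ≤ y j) (hF : ∀ n, |F n| ≤ M)
    (hc : ∀ᶠ j in (U : Filter ℕ), c * Real.log ((y j : ℝ) / x j) ≤
      ∑ n ∈ Icc (x j) (y j), F n / n) : c ≤ ldI U x y F := by
  obtain ⟨hx, hL⟩ := hAw
  obtain ⟨g, hg⟩ : ∃ g : ℕ → ℝ, g = fun j =>
      (∑ n ∈ Icc (x j) (y j), F n / n) / Real.log ((y j : ℝ) / x j) := ⟨_, rfl⟩
  have hM : 0 ≤ M := (abs_nonneg _).trans (hF 0)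
  have h1 : ∀ᶠ j in (U : Filter ℕ), g j ∈ Set.Icc (-(2 * M)) (2 * M) := by
    filter_upwards [hL.eventually_ge_atTop 1] with j hj
    have hsum : |∑ n ∈ Icc (x j) (y j), F n / n| ≤
        M * (1 + Real.log ((y j : ℝ) / x j)) := by
      refine (Finset.abs_sum_le_sum_abs _ _).trans ?_
      calc ∑ n ∈ Icc (x j) (y j), |F n / n|
          ≤ ∑ n ∈ Icc (x j) (y j), M * ((1 : ℝ) / n) := Finset.sum_le_sum fun n _ => by
            rw [abs_div, Nat.abs_cast, ← mul_one_div]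
            exact mul_le_mul_of_nonneg_right (hF n) (by positivity)
        _ = M * ∑ n ∈ Icc (x j) (y j), (1 : ℝ) / n := (Finset.mul_sum _ _ _).symm
        _ ≤ _ := mul_le_mul_of_nonneg_left (Pool.Agent.H14.LF.sum_window (hx j) (hxy j)) hM
    rw [Set.mem_Icc, ← abs_le, hg]
    have hpos : 0 < Real.log ((y j : ℝ) / x j) := by linarith
    change |(∑ n ∈ Icc (x j) (y j), F n / n) / Real.log ((y j : ℝ) / x j)| ≤ 2 * M
    rw [abs_div, abs_of_pos hpos, div_le_iff₀ hpos]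
    refine hsum.trans ?_
    nlinarith
  obtain ⟨a, _, ha⟩ := (isCompact_Icc (a := -(2 * M)) (b := 2 * M)).ultrafilter_le_nhds
    (U.map g) (le_principal_iff.2 h1)
  have hT : Tendsto g (U : Filter ℕ) (𝓝 a) := by
    rwa [Ultrafilter.coe_map] at ha
  have e : ldI U x y F = a := by
    unfold ldI
    rw [← hg]
    exact hT.limUnder_eq
  rw [e]
  refine ge_of_tendsto hT ?_
  filter_upwards [hc, hL.eventually_ge_atTop 1] with j hj1 hj2
  rw [hg]
  exact (le_div_iff₀ (by linarith)).2 hj1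

/-- one step of the shift -/
theorem shift_one (g : ℕ → ℝ) (g0 : ∀ n, 0 ≤ g n) (g1 : ∀ n, g n ≤ 1) (x y : ℕ) (hx : 0 < x)
    (hxy : x ≤ y) : ∑ n ∈ Icc x y, g (n + 1) / n ≤
      ∑ n ∈ Icc x y, g n / n + 1 / x - 1 / ((y : ℝ) + 1) + g (y + 1) / ((y : ℝ) + 1) := by
  have key : ∀ (n : ℕ) (a : ℝ), 0 < n → 0 ≤ a → a ≤ 1 →
      a / n ≤ 1 / n - 1 / ((n : ℝ) + 1) + a / ((n : ℝ) + 1) := by
    intro n a hn h0 h1
    have hn' : (0 : ℝ) < n := by exact_mod_cast hn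
    have h2 : 0 ≤ 1 / (n : ℝ) - 1 / ((n : ℝ) + 1) := by
      rw [sub_nonneg]
      exact one_div_le_one_div_of_le hn' (by linarith)
    have e1 : a / (n : ℝ) = a * (1 / n) := by ring
    have e2 : a / ((n : ℝ) + 1) = a * (1 / ((n : ℝ) + 1)) := by ring
    rw [e1, e2]
    nlinarith
  induction y, hxy using Nat.le_induction with
  | base =>
    rw [Icc_self, sum_singleton, sum_singleton]
    have h1 := key x (g (x + 1)) hx (g0 _) (g1 _)
    have h2 : 0 ≤ g x / (x : ℝ) := div_nonneg (g0 x) (Nat.cast_nonneg x)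
    linarith
  | succ y hxy ih =>
    rw [← Finset.insert_Icc_right_eq_Icc_add_one (by omega), sum_insert (by simp),
      sum_insert (by simp)]
    have h1 := key (y + 1) (g (y + 1 + 1)) (by omega) (g0 _) (g1 _)
    push_cast at h1 ih ⊢
    linarith

/-- shifts -/
theorem shift (g : ℕ → ℝ) (g0 : ∀ n, 0 ≤ g n) (g1 : ∀ n, g n ≤ 1) (x y : ℕ) (hx : 0 < x)
    (hxy : x ≤ y) (s : ℕ) : ∑ n ∈ Icc x y, g (n + s) / n ≤ ∑ n ∈ Icc x y, g n / n + 2 * s := by
  induction s with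
  | zero => simp
  | succ s ih =>
    have h1 := shift_one (fun n => g (n + s)) (fun n => g0 _) (fun n => g1 _) x y hx hxy
    have h2 : ∑ n ∈ Icc x y, g (n + (s + 1)) / n = ∑ n ∈ Icc x y, g (n + 1 + s) / n :=
      sum_congr rfl fun n _ => by rw [show n + (s + 1) = n + 1 + s by omega]
    rw [h2]
    have hx1 : (1 : ℝ) ≤ x := by exact_mod_cast hx
    have h3 : 1 / (x : ℝ) ≤ 1 := by
      rw [div_le_one (by linarith)]
      exact hx1
    have hy0 : (0 : ℝ) ≤ y := Nat.cast_nonneg y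
    have h4 : g (y + 1 + s) / ((y : ℝ) + 1) ≤ 1 := by
      rw [div_le_one (by linarith)]
      have := g1 (y + 1 + s)
      linarith
    have h5 : 0 ≤ 1 / ((y : ℝ) + 1) := by positivity
    have h6 : ∑ n ∈ Icc x y, g (n + 1 + s) / n ≤ ∑ n ∈ Icc x y, g (n + s) / n + 1 / x -
      1 / ((y : ℝ) + 1) + g (y + 1 + s) / ((y : ℝ) + 1) := h1
    push_cast
    linarith

theorem wN_shift (n s : ℕ) : (fun i => wN n (i + s)) = wN (n + s) := by
  funext i
  unfold wN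
  congr 1
  omega

/-- averages over shifts -/
theorem avg_shift (g : ℕ → ℝ) (g0 : ∀ n, 0 ≤ g n) (g1 : ∀ n, g n ≤ 1) (x y : ℕ) (hx : 0 < x)
    (hxy : x ≤ y) (J M S : ℕ) (hM : 0 < M) (s : (Fin J → ℕ) → ℕ → ℕ)
    (hs : ∀ b ∈ Fintype.piFinset (fun _ : Fin J => range M), ∀ b' ∈ range M, s b b' ≤ S) :
    ∑ n ∈ Icc x y, ((∑ b ∈ Fintype.piFinset (fun _ : Fin J => range M),
      (∑ b' ∈ range M, g (n + s b b')) / M) / (M : ℝ) ^ J) / n ≤
    ∑ n ∈ Icc x y, g n / n + 2 * S := by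
  have hM' : (0 : ℝ) < M := by exact_mod_cast hM
  set G : ℝ := ∑ n ∈ Icc x y, g n / n with hG
  set PF := Fintype.piFinset (fun _ : Fin J => range M) with hPF
  have hcard : (PF.card : ℝ) = (M : ℝ) ^ J := by
    rw [hPF, Fintype.card_piFinset]
    simp
  have e : ∑ n ∈ Icc x y, ((∑ b ∈ PF, (∑ b' ∈ range M, g (n + s b b')) / M) / (M : ℝ) ^ J) / n =
      (∑ b ∈ PF, ∑ b' ∈ range M, ∑ n ∈ Icc x y, g (n + s b b') / n) / (M * (M : ℝ) ^ J) := by
    have e1 : ∀ n ∈ Icc x y, ((∑ b ∈ PF, (∑ b' ∈ range M, g (n + s b b')) / M) / (M : ℝ) ^ J) / n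
        = (∑ b ∈ PF, ∑ b' ∈ range M, g (n + s b b') / n) / (M * (M : ℝ) ^ J) := by
      intro n hn
      have hn0 : (0 : ℝ) < n := by
        have := (Finset.mem_Icc.1 hn).1
        exact_mod_cast (by omega : 0 < n)
      simp only [← Finset.sum_div]
      field_simp
    rw [sum_congr rfl e1, ← Finset.sum_div, Finset.sum_comm]
    congr 1
    refine sum_congr rfl fun b _ => ?_
    rw [Finset.sum_comm]
  rw [e, div_le_iff₀ (by positivity)]
  calc ∑ b ∈ PF, ∑ b' ∈ range M, ∑ n ∈ Icc x y, g (n + s b b') / n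
      ≤ ∑ b ∈ PF, ∑ b' ∈ range M, (G + 2 * S) := by
        refine sum_le_sum fun b hb => sum_le_sum fun b' hb' => ?_
        refine (shift g g0 g1 x y hx hxy (s b b')).trans ?_
        have : ((s b b' : ℕ) : ℝ) ≤ S := by exact_mod_cast hs b hb b' hb'
        linarith
    _ = (G + 2 * S) * (M * (M : ℝ) ^ J) := by
        rw [sum_const, sum_const, nsmul_eq_mul, nsmul_eq_mul, hcard, card_range]
        ring

theorem pf_GLB (hW : T_GWN) (h1 : T_MN1) (h2 : T_MN2) (hB : T_BDG) : T_GLB := by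
  intro u c J hu hn
  obtain ⟨ε, x, y, hε, hxy, hlen, hbig⟩ := hW u c J hu hn
  have hUat : ((hyperfilter ℕ : Ultrafilter ℕ) : Filter ℕ) ≤ atTop := by
    rw [← Nat.cofinite_eq_atTop]
    exact hyperfilter_le_cofinite
  have h8 : ∀ j : ℕ, (1 : ℝ) ≤ 8 ^ j := fun j => one_le_pow₀ (by norm_num)
  have hAw : Aw (hyperfilter ℕ) x y := by
    refine ⟨fun j => (hxy j).1, ?_⟩
    refine Tendsto.mono_left ?_ hUat
    refine tendsto_atTop_mono (f := fun j : ℕ => (j : ℝ)) (fun j => ?_)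
      tendsto_natCast_atTop_atTop
    refine le_trans ?_ (hlen j)
    exact le_mul_of_one_le_right (Nat.cast_nonneg j) (h8 j)
  have hm : 0 < min ε 1 := lt_min hε one_pos
  refine ⟨min ε 1 / 2, hyperfilter ℕ, x, y, by positivity, by linarith [min_le_right ε 1], hAw,
    fun r => ?_⟩
  have hH : 0 < 2 ^ r := by positivity
  obtain ⟨b1, -, -, -⟩ := hB u c J (2 ^ r) (2 ^ r) hu.1 hH hH
  obtain ⟨g, hg⟩ : ∃ g : ℕ → ℝ, g = fun n => DG u c J (2 ^ r) (2 ^ r) (wN n) := ⟨_, rfl⟩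
  have g0 : ∀ n, 0 ≤ g n := fun n => by rw [hg]; exact (b1 _).1
  have g1 : ∀ n, g n ≤ 1 := fun n => by rw [hg]; exact (b1 _).2
  rw [← hg]
  refine ldI_ge _ x y g 1 _ hAw (fun j => (hxy j).2.1)
    (fun n => by rw [abs_of_nonneg (g0 n)]; exact g1 n) (hUat ?_)
  refine eventually_atTop.2 ⟨r + ⌈4 * ((c : ℝ) * J + 1) / ε⌉₊, fun j hj => ?_⟩
  obtain ⟨M, hM⟩ : ∃ M : ℕ, M = 2 ^ (j - r) := ⟨_, rfl⟩
  have hM0 : 0 < M := by rw [hM]; positivity
  have hMj : 2 ^ j = M * 2 ^ r := by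
    rw [hM, ← pow_add]
    congr 1
    omega
  have hDG : ∀ n : ℕ, DG u c J (2 ^ j) (2 ^ j) (wN n) ≤
      (∑ b ∈ Fintype.piFinset (fun _ : Fin J => range M),
      (∑ b' ∈ range M, g (n + (c * (2 ^ r * ∑ j, b j) + 2 ^ r * b'))) / M) / (M : ℝ) ^ J := by
    intro n
    have i1 := h1 u c J (2 ^ r) (2 ^ j) M (wN n) hu.1 hH (by positivity) hM0
    rw [← hMj] at i1
    refine i1.trans (div_le_div_of_nonneg_right (sum_le_sum fun b _ => ?_) (by positivity))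
    have i2 := h2 u c J (2 ^ r) (2 ^ r) M (wN (n + c * (2 ^ r * ∑ j, b j))) hu.1 hH hH hM0
    rw [← hMj] at i2
    rw [wN_shift]
    refine i2.trans (le_of_eq ?_)
    congr 1
    refine sum_congr rfl fun b' _ => ?_
    rw [wN_shift, hg, add_assoc]
  have hS : ∀ b ∈ Fintype.piFinset (fun _ : Fin J => range M), ∀ b' ∈ range M,
      c * (2 ^ r * ∑ j, b j) + 2 ^ r * b' ≤ (c * J + 1) * 2 ^ j := by
    intro b hb b' hb'
    rw [Fintype.mem_piFinset] at hb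
    have s1 : ∑ j, b j ≤ J * M := by
      calc ∑ j, b j ≤ ∑ _j : Fin J, M := sum_le_sum fun j _ => (mem_range.1 (hb j)).le
        _ = J * M := by rw [sum_const, Finset.card_univ, Fintype.card_fin, smul_eq_mul]
    have s2 : b' ≤ M := (mem_range.1 hb').le
    calc c * (2 ^ r * ∑ j, b j) + 2 ^ r * b' ≤ c * (2 ^ r * (J * M)) + 2 ^ r * M :=
          add_le_add (Nat.mul_le_mul_left _ (Nat.mul_le_mul_left _ s1))
            (Nat.mul_le_mul_left _ s2)
      _ = (c * J + 1) * 2 ^ j := by rw [hMj]; ring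
  have hav := avg_shift g g0 g1 (x j) (y j) (hxy j).1 (hxy j).2.1 J M ((c * J + 1) * 2 ^ j) hM0
    (fun b b' => c * (2 ^ r * ∑ j, b j) + 2 ^ r * b') hS
  have hsum : ∑ n ∈ Icc (x j) (y j), DG u c J (2 ^ j) (2 ^ j) (wN n) / n ≤
      ∑ n ∈ Icc (x j) (y j), g n / n + 2 * (((c * J + 1) * 2 ^ j : ℕ) : ℝ) :=
    (sum_le_sum fun n _ => div_le_div_of_nonneg_right (hDG n) (Nat.cast_nonneg n)).trans hav
  have hbj := hbig j
  have hlj := hlen j
  obtain ⟨L, hL⟩ : ∃ L, L = Real.log ((y j : ℝ) / x j) := ⟨_, rfl⟩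
  rw [← hL] at hbj hlj ⊢
  have hj1 : 4 * ((c : ℝ) * J + 1) / ε ≤ j := by
    refine (Nat.le_ceil _).trans ?_
    exact_mod_cast (by omega : ⌈4 * ((c : ℝ) * J + 1) / ε⌉₊ ≤ j)
  rw [div_le_iff₀ hε] at hj1
  have h28 : (2 : ℝ) ^ j ≤ 8 ^ j := pow_le_pow_left₀ (by norm_num) (by norm_num) j
  have hcJ : (0 : ℝ) ≤ (c : ℝ) * J + 1 := by positivity
  have hj0 : (0 : ℝ) ≤ j := Nat.cast_nonneg j
  have f1 : 2 * (((c * J + 1) * 2 ^ j : ℕ) : ℝ) ≤ ε / 2 * L := by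
    push_cast
    have f2 : 4 * ((c : ℝ) * J + 1) * 2 ^ j ≤ (j * ε) * 8 ^ j :=
      mul_le_mul hj1 h28 (by positivity) (by positivity)
    have f3 : ε * (j * 8 ^ j) ≤ ε * L := mul_le_mul_of_nonneg_left hlj hε.le
    have f4 : ((j : ℝ) * ε) * 8 ^ j = ε * (j * 8 ^ j) := by ring
    linarith
  have hL0 : 0 ≤ L := le_trans (by positivity) hlj
  have f5 : min ε 1 / 2 * L ≤ ε / 2 * L :=
    mul_le_mul_of_nonneg_right (by linarith [min_le_left ε 1]) hL0
  linarith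

end Pool.Agent.H37.GNG
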