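import Pool.Agent.H28.GN.T3

/-!
Row CDG of thg_modules: good words have no isolated mismatch in the middle.
-/

set_option autoImplicit false

open MeasureTheory ProbabilityTheory Filter Topology Finset
open scoped Nat ENNReal

namespace Pool.Agent.H37.GNG

open Pool.Agent.H28.GN
open Pool.Agent.H28.LF (Um Ix)

section

variable {J : ℕ}

theorem norm_cv (ω : Fin J → Bool) (z : ℂ) : ‖cv ω z‖ = ‖z‖ := by
  unfold cv
  split_ifs
  · rfl
  · exact RCLike.norm_conj z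

theorem cv_sub (ω : Fin J → Bool) (a b : ℂ) : cv ω a - cv ω b = cv ω (a - b) := by
  unfold cv
  split_ifs
  · rfl
  · rw [map_sub]

theorem norm_st (u : Bool × Bool → ℂ) (hu : ∀ b, ‖u b‖ = 1)
    (w : (Fin J → Bool) → ℕ → Bool × Bool) (i : ℕ) : ‖st u w i‖ = 1 := by
  unfold st
  rw [norm_prod]
  exact prod_eq_one fun ω _ => by rw [norm_cv, hu]

theorem norm_Pr (u : Bool × Bool → ℂ) (hu : ∀ b, ‖u b‖ = 1)
    (w : (Fin J → Bool) → ℕ → Bool × Bool) (l k : ℕ) : ‖Pr u w l k‖ = 1 := by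
  unfold Pr
  rw [norm_prod]
  exact prod_eq_one fun i _ => norm_st u hu w _

theorem Pr_congr (u : Bool × Bool → ℂ) (w w' : (Fin J → Bool) → ℕ → Bool × Bool) (l k : ℕ)
    (h : ∀ i, i < k → st u w (l + i) = st u w' (l + i)) : Pr u w l k = Pr u w' l k := by
  unfold Pr
  exact prod_congr rfl fun i hi => h i (mem_range.1 hi)

theorem mm_congr (u : Bool × Bool → ℂ) (K : ℕ) (w w' : (Fin J → Bool) → ℕ → Bool × Bool) (l : ℕ)
    (h : ∀ i, i < K → st u w (l + i) = st u w' (l + i)) : mm u K w l = mm u K w' l := by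
  unfold mm
  congr 1
  refine sum_congr rfl fun k hk => ?_
  rw [Pr_congr u w w' l (k + 1) fun i hi => h i (by have := mem_range.1 hk; omega)]

end

theorem pf_CDG : T_CDG := by
  intro J u ix e z ζ Q L hu hix he hζ hz h5 hsep v v' hv hv' i hi hne
  by_contra hcon
  push Not at hcon
  unfold BadG at hv hv'
  simp only [Set.mem_ofPred_eq, not_not] at hv hv'
  obtain ⟨w, hw, hg1, hg2⟩ := hv
  obtain ⟨w', hw', hg1', hg2'⟩ := hv'
  obtain ⟨hQi, hiL⟩ := (mem_filter.1 hi).2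
  obtain ⟨ω₀, a₀⟩ := i
  simp only at hQi hiL
  have heq : ∀ (ω : Fin J → Bool) (a : ℕ), a < L + Q → ¬ (ω = ω₀ ∧ a = (a₀ : ℕ)) →
      u (w ω a) = u (w' ω a) := by
    intro ω a ha hn
    have h1 := hcon (ω, ⟨a, ha⟩) (fun h => hn
      ⟨(Prod.mk.inj h).1, by rw [← (Prod.mk.inj h).2]⟩)
    rw [hw, hw'] at h1
    exact (hix _ _).1 h1
  have hne' : u (w ω₀ a₀) ≠ u (w' ω₀ a₀) := by
    intro h
    apply hne
    rw [hw, hw']
    exact (hix _ _).2 h
  have hst : ∀ a : ℕ, a < L + Q → a ≠ (a₀ : ℕ) → st u w a = st u w' a := by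
    intro a ha hn
    unfold st
    exact prod_congr rfl fun ω _ => by rw [heq ω a ha fun h => hn h.2]
  have h0 : mm u Q w 0 = mm u Q w' 0 :=
    mm_congr u Q w w' 0 fun j hj => hst _ (by omega) (by omega)
  have hL : mm u Q w L = mm u Q w' L :=
    mm_congr u Q w w' L fun j hj => hst _ (by omega) (by omega)
  -- the exceptional factor
  have hd : ‖st u w a₀ - st u w' a₀‖ = ‖u (w ω₀ a₀) - u (w' ω₀ a₀)‖ := by
    have hsp : ∀ w₁ : (Fin J → Bool) → ℕ → Bool × Bool, st u w₁ a₀ =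
        cv ω₀ (u (w₁ ω₀ a₀)) * ∏ ω ∈ univ.erase ω₀, cv ω (u (w₁ ω a₀)) := by
      intro w₁
      unfold st
      rw [mul_prod_erase univ (fun ω => cv ω (u (w₁ ω a₀))) (mem_univ ω₀)]
    have hr : ∏ ω ∈ univ.erase ω₀, cv ω (u (w ω a₀)) =
        ∏ ω ∈ univ.erase ω₀, cv ω (u (w' ω a₀)) := by
      refine prod_congr rfl fun ω hω => ?_
      rw [heq ω a₀ a₀.2 fun h => (mem_erase.1 hω).1 h.1]
    have hn : ‖∏ ω ∈ univ.erase ω₀, cv ω (u (w' ω a₀))‖ = 1 := by
      rw [norm_prod]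
      exact prod_eq_one fun ω _ => by rw [norm_cv, hu.1]
    rw [hsp w, hsp w', hr, ← sub_mul, norm_mul, hn, mul_one, cv_sub, norm_cv]
  -- the products
  have hsplit : ∀ w₁ : (Fin J → Bool) → ℕ → Bool × Bool, Pr u w₁ 0 L =
      st u w₁ a₀ * ∏ k ∈ (range L).erase a₀, st u w₁ k := by
    intro w₁
    unfold Pr
    simp only [zero_add]
    rw [mul_prod_erase (range L) (fun k => st u w₁ k) (mem_range.2 hiL)]
  have hrest : ∏ k ∈ (range L).erase (a₀ : ℕ), st u w k =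
      ∏ k ∈ (range L).erase (a₀ : ℕ), st u w' k := by
    refine prod_congr rfl fun k hk => ?_
    rw [mem_erase, mem_range] at hk
    exact hst k (by omega) hk.1
  have hnr : ‖∏ k ∈ (range L).erase (a₀ : ℕ), st u w' k‖ = 1 := by
    rw [norm_prod]
    exact prod_eq_one fun k _ => norm_st u hu.1 _ _
  set R := ∏ k ∈ (range L).erase (a₀ : ℕ), st u w' k with hR
  set M := mm u Q w' L with hM
  set N := mm u Q w' 0 with hN
  rw [hsplit w, hrest, hL, h0] at hg2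
  rw [hsplit w'] at hg2'
  rw [h0] at hg1
  have hdiff : ‖u (w ω₀ a₀) - u (w' ω₀ a₀)‖ * ‖M‖ ≤ 2 * z := by
    have e1 : (st u w a₀ - st u w' a₀) * R * M =
        (st u w a₀ * R * M - N) - (st u w' a₀ * R * M - N) := by ring
    have e2 : ‖(st u w a₀ - st u w' a₀) * R * M‖ = ‖u (w ω₀ a₀) - u (w' ω₀ a₀)‖ * ‖M‖ := by
      rw [norm_mul, norm_mul, hnr, hd, mul_one]
    rw [← e2, e1]
    calc _ ≤ ‖st u w a₀ * R * M - N‖ + ‖st u w' a₀ * R * M - N‖ := norm_sub_le _ _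
      _ ≤ z + z := add_le_add hg2 hg2'
      _ = 2 * z := by ring
  have hMl : e - z ≤ ‖M‖ := by
    have e2 : ‖st u w' a₀ * R * M‖ = ‖M‖ := by
      rw [norm_mul, norm_mul, hnr, norm_st u hu.1]
      ring
    have e3 : ‖N‖ ≤ ‖st u w' a₀ * R * M‖ + ‖st u w' a₀ * R * M - N‖ := by
      have := norm_sub_norm_le N (N - st u w' a₀ * R * M)
      have h7 : N - (N - st u w' a₀ * R * M) = st u w' a₀ * R * M := by ring
      have h8 : ‖N - st u w' a₀ * R * M‖ = ‖st u w' a₀ * R * M - N‖ := norm_sub_rev _ _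
      rw [h7, h8] at this
      linarith
    rw [e2] at e3
    linarith
  have hζ1 := hsep _ _ hne'
  have hζ2 : ζ ≤ 2 := by
    have := norm_sub_le (u (w ω₀ a₀)) (u (w' ω₀ a₀))
    rw [hu.1, hu.1] at this
    linarith
  have hM0 : 0 ≤ ‖M‖ := norm_nonneg _
  have h9 : ζ * ‖M‖ ≤ 2 * z := le_trans (mul_le_mul_of_nonneg_right hζ1 hM0) hdiff
  have h10 : ζ * (e - z) ≤ ζ * ‖M‖ := mul_le_mul_of_nonneg_left hMl hζ.le
  have h11 : ζ * z ≤ 2 * z := mul_le_mul_of_nonneg_right hζ2 hz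
  nlinarith

end Pool.Agent.H37.GNG
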